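import Pool.Agent.MP_c1891a_nt.H43.Spec

/-
Norms of algebraic integers and of polynomials with integral coefficients.
-/

namespace Pool.Agent.MP_c1891a_nt.H43

open Finset Polynomial Module

theorem normP_prod (L : Type) [Field L] [NumberField L] (a : L) :
    ∏ σ : L →+* ℂ, σ a = ((Algebra.norm ℚ a : ℚ) : ℂ) := by
  have h := Algebra.norm_eq_prod_embeddings ℚ ℂ a
  rw [eq_ratCast] at h
  rw [h]
  exact Fintype.prod_equiv (RingHom.equivRatAlgHom L ℂ) _ _ fun σ => rfl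

theorem normP_one (L : Type) [Field L] [NumberField L] (a : L) (ha : IsIntegral ℤ a)
    (h0 : a ≠ 0) : 1 ≤ ∏ σ : L →+* ℂ, ‖σ a‖ := by
  rw [← norm_prod, normP_prod]
  have h1 : IsIntegral ℤ (Algebra.norm ℚ a) := Algebra.isIntegral_norm ℚ ha
  obtain ⟨n, hn⟩ := IsIntegrallyClosed.isIntegral_iff.1 h1
  have h2 : Algebra.norm ℚ a ≠ 0 := Algebra.norm_ne_zero_iff.2 h0
  rw [← hn] at h2 ⊢
  have h3 : n ≠ 0 := by
    rintro rfl
    simp at h2
  have h4 : (1 : ℤ) ≤ |n| := Int.one_le_abs h3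
  simp only [eq_intCast, Rat.cast_intCast, Complex.norm_intCast]
  exact_mod_cast h4

theorem normP_rat (L : Type) [Field L] [NumberField L] (f : L[X]) :
    ∃ Q : ℚ[X], Q.map (algebraMap ℚ ℂ) = ∏ σ : L →+* ℂ, f.map σ := by
  classical
  set P : ℂ[X] := ∏ σ : L →+* ℂ, f.map σ with hP
  have hinj : Set.InjOn (Nat.cast : ℕ → ℚ) (range (P.natDegree + 1) : Finset ℕ) :=
    Nat.cast_injective.injOn
  have hinj' : Set.InjOn (Nat.cast : ℕ → ℂ) (range (P.natDegree + 1) : Finset ℕ) :=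
    Nat.cast_injective.injOn
  refine ⟨Lagrange.interpolate (range (P.natDegree + 1)) (Nat.cast : ℕ → ℚ)
    (fun i => Algebra.norm ℚ (f.eval (i : L))), ?_⟩
  refine eq_of_degrees_lt_of_eval_index_eq (range (P.natDegree + 1)) hinj' ?_ ?_ ?_
  · exact lt_of_le_of_lt degree_map_le (Lagrange.degree_interpolate_lt _ hinj)
  · rw [card_range]
    exact lt_of_le_of_lt degree_le_natDegree (by exact_mod_cast Nat.lt_succ_self _)
  · intro i hi
    have e1 : (i : ℂ) = algebraMap ℚ ℂ (i : ℚ) := by simp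
    rw [e1, eval_map_algebraMap, aeval_algebraMap_apply_eq_algebraMap_eval,
      Lagrange.eval_interpolate_at_node _ hinj hi, hP, eval_prod, eq_ratCast, ← normP_prod]
    refine prod_congr rfl fun σ _ => ?_
    have e2 : algebraMap ℚ ℂ (i : ℚ) = σ (i : L) := by simp
    rw [e2, eval_map, eval₂_hom]

theorem normP_int (L : Type) [Field L] [NumberField L] (f : L[X]) (hf : IntC f) :
    ∃ T : ℤ[X], cx T = ∏ σ : L →+* ℂ, f.map σ := by
  obtain ⟨Q, hQ⟩ := normP_rat L f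
  have h1 : ∏ σ : L →+* ℂ, f.map σ ∈ lifts (algebraMap (integralClosure ℤ ℂ) ℂ) := by
    refine Subsemiring.prod_mem _ fun σ _ => ?_
    rw [lifts_iff_coeff_lifts]
    intro n
    rw [coeff_map]
    exact ⟨⟨σ (f.coeff n), (hf n).map_of_comp_eq (RingHom.id ℤ) σ (Subsingleton.elim _ _)⟩, rfl⟩
  have h2 : ∏ σ : L →+* ℂ, f.map σ ∈ lifts (Int.castRingHom ℂ) := by
    rw [lifts_iff_coeff_lifts] at h1 ⊢
    intro n
    obtain ⟨z, hz⟩ := h1 n
    have h3 : IsIntegral ℤ (algebraMap ℚ ℂ (Q.coeff n)) := by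
      rw [← coeff_map, hQ, ← hz]
      exact z.2
    obtain ⟨m, hm⟩ := IsIntegrallyClosed.isIntegral_iff.1
      ((isIntegral_algebraMap_iff (algebraMap ℚ ℂ).injective).1 h3)
    refine ⟨m, ?_⟩
    rw [← hQ, coeff_map, ← hm]
    simp
  exact (mem_lifts _).1 h2

theorem normP_dvd (L : Type) [Field L] [NumberField L] (K : Type) [Field K] [NumberField K]
    [Algebra L K] (f : L[X]) (p : K) (hp : aeval p f = 0)
    (h : ∀ σ τ : K →+* ℂ, (∀ a, σ (algebraMap L K a) = τ (algebraMap L K a)) → σ p = τ p →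
      σ = τ) :
    ∏ σ : K →+* ℂ, (X - C (σ p)) ∣ ∏ σ : L →+* ℂ, f.map σ := by
  classical
  rw [← prod_fiberwise univ (fun σ : K →+* ℂ => σ.comp (algebraMap L K))]
  refine prod_dvd_prod_of_dvd _ _ fun τ _ => ?_
  refine Finset.prod_dvd_of_coprime ?_ ?_
  · intro σ hσ σ' hσ' hne
    have e1 := (mem_filter.1 (mem_coe.1 hσ)).2
    have e2 := (mem_filter.1 (mem_coe.1 hσ')).2
    refine isCoprime_X_sub_C_of_isUnit_sub (IsUnit.mk0 _ (sub_ne_zero.2 fun e => hne ?_))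
    exact h σ σ' (fun a => RingHom.congr_fun (e1.trans e2.symm) a) e
  · intro σ hσ
    have e1 := (mem_filter.1 hσ).2
    rw [dvd_iff_isRoot, IsRoot, ← e1, eval_map, ← hom_eval₂, ← aeval_def, hp, map_zero]

theorem sNormP : SNormP := fun L _ _ =>
  ⟨normP_one L, normP_int L, fun K _ _ _ f p _ hp h => normP_dvd L K f p hp h⟩

end Pool.Agent.MP_c1891a_nt.H43
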